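import Pool.Agent.MP_caba0b_al.H43.Iface

/-! Facts on the staircase weight. -/

namespace Pool.Agent.MP_caba0b_al.H15

open Equiv Finset Pool.Agent.MP_caba0b_al.H43

variable {n : ℕ}

theorem rearr {f g : Fin n → ℝ} (hf : Monotone f) (hg : Monotone g) (π : Perm (Fin n)) :
    ∑ i, f i * g (π i) ≤ ∑ i, f i * g i :=
  (hf.monovary hg).sum_mul_comp_perm_le_sum_mul

theorem mono_val : Monotone fun i : Fin n => ((i : ℕ) : ℝ) := fun _ _ h => Nat.cast_le.2 h

theorem vand {x : Fin n → ℝ} {c : ℝ} (hc : 0 ≤ c) (hc1 : c ≤ 1) (hx : ∀ i, 0 ≤ x i)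
    (h : ∀ i j, i < j → c * x j ≤ x j - x i) :
    c ^ (n ^ 2) * ∏ i, x i ^ (i : ℕ) ≤
      ∑ π : Perm (Fin n), ((Perm.sign π : ℤ) : ℝ) * ∏ i, x i ^ (π i : ℕ) := by
  have e1 : ∑ π : Perm (Fin n), ((Perm.sign π : ℤ) : ℝ) * ∏ i, x i ^ (π i : ℕ) =
      ∏ i, ∏ j ∈ Ioi i, (x j - x i) := by
    rw [← Matrix.det_vandermonde, ← Matrix.det_transpose, Matrix.det_apply']
    rfl
  have e2 : ∏ i : Fin n, ∏ j ∈ Ioi i, (c * x j) = c ^ (∑ i : Fin n, (i : ℕ)) * ∏ i, x i ^ (i : ℕ) := by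
    rw [prod_comm' (t' := univ) (s' := fun j => Iio j) (by simp), ← prod_pow_eq_pow_sum,
      ← prod_mul_distrib]
    simp [mul_pow]
  have e3 : ∑ i : Fin n, (i : ℕ) ≤ n ^ 2 :=
    (sum_le_card_nsmul _ _ n fun i _ => i.2.le).trans (by simp [sq])
  rw [e1]
  refine le_trans ?_ (prod_le_prod (fun i _ => prod_nonneg fun j _ => mul_nonneg hc (hx j))
    fun i _ => prod_le_prod (fun j _ => mul_nonneg hc (hx j)) fun j hj => h i j (mem_Ioi.1 hj))
  rw [e2]
  exact mul_le_mul_of_nonneg_right (pow_le_pow_of_le_one hc hc1 e3)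
    (prod_nonneg fun i _ => pow_nonneg (hx i) _)

theorem gauss (t : ℝ) (lam : Wt n) (ht : 0 ≤ t) (hl : Monotone lam) :
    Real.exp (-(t * nsq lam)) * (1 - Real.exp (-(2 * t))) ^ (n ^ 2) ≤
      adel (fun ν => Real.exp (-(t * nsq ν))) (lam + del n) := by
  set l : Fin n → ℝ := fun i => (lam i : ℝ) + (i : ℕ) with hl'
  set E : ℝ := Real.exp (-(t * (∑ i, l i ^ 2 + ∑ i : Fin n, ((i : ℕ) : ℝ) ^ 2)))
  have key : ∀ π : Perm (Fin n), Real.exp (-(t * nsq (lam + del n - del n ∘ π))) =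
      E * ∏ i, Real.exp (2 * t * l i) ^ (π i : ℕ) := fun π => by
    simp only [← Real.exp_nat_mul, ← Real.exp_sum, E, ← Real.exp_add]
    congr 1
    rw [← Equiv.sum_comp π fun i : Fin n => ((i : ℕ) : ℝ) ^ 2, ← sum_add_distrib, mul_sum, nsq,
      mul_sum, ← sum_neg_distrib, ← sum_neg_distrib, ← sum_add_distrib]
    refine sum_congr rfl fun i _ => ?_
    simp only [hl', del, Pi.sub_apply, Pi.add_apply, Function.comp]
    push_cast
    ring
  have h1 := key 1
  rw [Perm.coe_one, Function.comp_id, add_sub_cancel_right] at h1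
  have h2 := vand (x := fun i => Real.exp (2 * t * l i)) (c := 1 - Real.exp (-(2 * t)))
    (sub_nonneg.2 (Real.exp_le_one_iff.2 (by linarith))) (by linarith [Real.exp_pos (-(2 * t))])
    (fun i => (Real.exp_pos _).le) fun i j hij => by
      have a1 : (lam i : ℝ) ≤ lam j := Int.cast_le.2 (hl hij.le)
      have a2 : ((i : ℕ) : ℝ) + 1 ≤ (j : ℕ) := by exact_mod_cast hij
      have a3 : Real.exp (2 * t * l i) ≤ Real.exp (-(2 * t)) * Real.exp (2 * t * l j) := by
        rw [← Real.exp_add]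
        refine Real.exp_le_exp.2 ?_
        simp only [hl']
        nlinarith
      linarith
  simp only [adel, key, h1, id]
  have h3 := mul_le_mul_of_nonneg_left h2 (Real.exp_pos _ : 0 < E).le
  rw [mul_sum] at h3
  refine le_trans (le_of_eq (by ring)) (h3.trans (le_of_eq (sum_congr rfl fun π _ => by ring)))

theorem val_eq (i : Fin n) : ((i : ℕ) : ℂ) = ∑ j : Fin n, if j < i then 1 else 0 := by
  rw [sum_boole, filter_gt_eq_Iio, Fin.card_Iio]

theorem inv (π : Perm (Fin n)) (ξ : Fin n → ℂ) :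
    ∑ i, ξ i * ((del n - del n ∘ π) i : ℤ) =
      ∑ p ∈ univ.filter (fun p : Fin n × Fin n => p.1 < p.2 ∧ π p.2 < π p.1),
        (ξ p.2 - ξ p.1) := by
  rw [sum_sub_distrib, sum_filter, sum_filter, Fintype.sum_prod_type_right, Fintype.sum_prod_type,
    ← sum_sub_distrib]
  refine sum_congr rfl fun i _ => ?_
  simp only [del, Pi.sub_apply, Function.comp]
  push_cast
  rw [val_eq i, val_eq (π i), ← Equiv.sum_comp π fun j => if j < π i then (1 : ℂ) else 0,
    ← sum_sub_distrib, ← sum_sub_distrib, mul_sum]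
  refine sum_congr rfl fun j _ => ?_
  rcases lt_trichotomy i j with h | rfl | h
  · simp [h, h.not_gt]
  · simp
  · rcases lt_or_gt_of_ne (π.injective.ne h.ne) with h' | h' <;> simp [h, h.not_gt, h', h'.not_gt]

theorem dom (lam : Wt n) (π : Perm (Fin n)) (hl : Monotone lam) :
    Dom lam (lam + del n - del n ∘ π) ∧ nsq lam ≤ nsq (lam + del n - del n ∘ π) := by
  have hl' : Monotone fun i => (lam i : ℝ) := fun _ _ h => Int.cast_le.2 (hl h)
  constructor
  · intro ξ
    have hm := Tuple.monotone_sort ξ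
    set τ := Tuple.sort ξ
    refine ⟨τ.symm, ?_⟩
    have a1 := rearr hm hl' τ
    have a2 := rearr hm mono_val π
    rw [← Equiv.sum_comp τ, ← Equiv.sum_comp τ fun i => ξ i * _]
    simp only [del, Pi.sub_apply, Pi.add_apply, Function.comp, Equiv.symm_apply_apply] at *
    push_cast
    simp only [mul_sub, mul_add, sum_sub_distrib, sum_add_distrib]
    linarith
  · have a2 := rearr hl' mono_val π
    have a3 : ∑ i, ((lam i : ℝ) ^ 2 + 2 * (lam i * (i : ℕ)) - 2 * (lam i * (π i : ℕ))) ≤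
        nsq (lam + del n - del n ∘ π) := sum_le_sum fun i _ => by
      simp only [del, Pi.sub_apply, Pi.add_apply, Function.comp]
      push_cast
      nlinarith [sq_nonneg (((i : ℕ) : ℝ) - (π i : ℕ))]
    simp only [sum_sub_distrib, sum_add_distrib, ← mul_sum] at a3
    unfold nsq at *
    linarith

theorem symB (n : ℕ) : SymB n := ⟨gauss, inv, dom⟩

end Pool.Agent.MP_caba0b_al.H15
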